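import Pool.Agent.V11151.CrownLC

/-!
# MP_6e91db_co: the f-vector of the order polytope of the face lattice of a polygon is log-concave

`Crown n` is the poset of the vertices and edges of an `n`-gon: `(j, false)` is the vertex `j` and
`(j, true)` is the edge with the endpoints `j` and `j + 1` (modulo `n`).  Adding a top (the polygon)
and a bottom (the empty face) gives the face lattice `WithBot (WithTop (Crown n))`.
`orderPolytope P` is the order polytope of the poset `P`.  A face of a polytope `Q` is an exposed
face (the empty set, or the set of maximisers over `Q` of a linear functional, which gives `Q`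
itself for the zero functional); `fdim F` is its dimension (`-1` for the empty set), and `fNum Q k`
is the number of faces of dimension `k`.

The theorem: for every `n ≥ 1`, in particular for every `n ≥ 3`, `f_{k-1} f_{k+1} ≤ f_k ^ 2` for
every integer `k`, where `f_k` is the number of `k`-faces of the order polytope of this lattice.
-/

namespace Pool.Agent.Results.MP_6e91db_co.PolygonLogConcave

open Pool.Agent.V11151.CrownFaces Pool.Agent.V11151.Pyramid

/-- For every `n` the `f`-vector of the order polytope of the face lattice of an `n`-gon is
log-concave. -/
theorem result : ∀ (n : ℕ) [NeZero n] (k : ℤ),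
    fNum (orderPolytope (WithBot (WithTop (Crown n)))) (k - 1) *
      fNum (orderPolytope (WithBot (WithTop (Crown n)))) (k + 1) ≤
      fNum (orderPolytope (WithBot (WithTop (Crown n)))) k ^ 2 := by
  intro n _ k
  have := Pool.Agent.V11151.CrownLC.polygon_slc n k k le_rfl
  rwa [← sq] at this

end Pool.Agent.Results.MP_6e91db_co.PolygonLogConcave
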